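import Pool.Agent.Y382.PAR.Stm

/-!
# Parities of complete mappings: transport along isomorphisms, groups of prime order
-/

set_option autoImplicit false

namespace Pool.Agent.Y77.PAR

open Pool.Agent.Y382.PAR

universe u v

/-- the sign is invariant under transport, types in different universes -/
theorem sgn_congr' {X : Type u} {Y : Type v} [Finite X] [Finite Y] (e : X ≃ Y)
    (f : Equiv.Perm X) : sgn (e.permCongr f) = sgn f := by
  classical
  have := Fintype.ofFinite X
  have := Fintype.ofFinite Y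
  rw [sgn_eq, sgn_eq, Equiv.Perm.sign_permCongr]

theorem t_ISO : Pool.Agent.Y382.PAR.S_ISO.{u} := by
  intro G H _ _ _ _ e h ε δ
  obtain ⟨f, F, h1, h2, h3⟩ := h ε δ
  refine ⟨e.toEquiv.permCongr f, e.toEquiv.permCongr F, ?_, ?_, ?_⟩
  · intro x
    rw [Equiv.permCongr_apply, Equiv.permCongr_apply, h1]
    show e (e.symm x * f (e.symm x)) = x * e (f (e.symm x))
    rw [map_mul, e.apply_symm_apply]
  · rw [sgn_congr, h2]
  · rw [sgn_congr, h3]

/-- groups of prime order `p ≥ 7` -/
theorem prime_of (h : Pool.Agent.Y382.PAR.S_PRI) (G : Type u) [Group G] [Finite G] (p : ℕ)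
    [hp' : Fact p.Prime] (hp : 7 ≤ p) (hG : Nat.card G = p) : AllPar G := by
  have hc : IsCyclic G := isCyclic_of_prime_card hG
  subst hG
  let e : Multiplicative (ZMod (Nat.card G)) ≃* G := zmodCyclicMulEquiv hc
  intro ε δ
  obtain ⟨f, F, h1, h2, h3⟩ := h (Nat.card G) hp ε δ
  have : Finite (ZMod (Nat.card G)) := Finite.of_equiv G (e.symm.toEquiv.trans Multiplicative.toAdd)
  let e' : ZMod (Nat.card G) ≃ G := Multiplicative.ofAdd.trans e.toEquiv
  refine ⟨e'.permCongr f, e'.permCongr F, ?_, ?_, ?_⟩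
  · intro x
    rw [Equiv.permCongr_apply, Equiv.permCongr_apply, h1]
    show e (Multiplicative.ofAdd (e'.symm x + f (e'.symm x))) = _
    rw [ofAdd_add, map_mul]
    have h4 : e (Multiplicative.ofAdd (e'.symm x)) = x := e'.apply_symm_apply x
    rw [h4]
    rfl
  · rw [sgn_congr', ← h2]
  · rw [sgn_congr', ← h3]

end Pool.Agent.Y77.PAR

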